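import Mathlib
import Pool.Agent.H165R3.BPE

set_option autoImplicit false

/-!
# The maximal ergodic inequality and the pointwise ergodic theorem
-/

namespace Pool.Agent.R243.Erg

open Filter Topology MeasureTheory Set
open scoped ENNReal NNReal
open Pool.Agent.H165R3.BPE (Mx Mx_nonneg Mx_meas Mx_mono Mx_sum)

variable {Y : Type*} [MeasurableSpace Y] {ρ : Measure Y} {R : Y → Y}

theorem Mx_int (hR : MeasurePreserving R ρ ρ) {φ : Y → ℝ} (hφ : Measurable φ)
    (hi : Integrable φ ρ) (n : ℕ) : Integrable (Mx R φ n) ρ := by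
  induction n with
  | zero => exact integrable_zero _ _ _
  | succ n ih =>
    refine Integrable.mono' (hi.norm.add (hR.integrable_comp_of_integrable ih))
      (Mx_meas hR.measurable hφ (n + 1)).aestronglyMeasurable (Eventually.of_forall fun x => ?_)
    rw [Real.norm_of_nonneg (Mx_nonneg R φ (n + 1) x)]
    show max 0 (φ x + Mx R φ n (R x)) ≤ ‖φ x‖ + Mx R φ n (R x)
    have h1 := Mx_nonneg R φ n (R x)
    have h2 := norm_nonneg (φ x)
    have h3 := Real.le_norm_self (φ x)
    exact max_le (by linarith) (by linarith)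

/-- The maximal ergodic theorem. -/
theorem garsia (hR : MeasurePreserving R ρ ρ) {φ : Y → ℝ} (hφ : Measurable φ)
    (hi : Integrable φ ρ) (n : ℕ) : 0 ≤ ∫ x in {x | 0 < Mx R φ (n + 1) x}, φ x ∂ρ := by
  set E := {x | 0 < Mx R φ (n + 1) x} with hE
  have hEm : MeasurableSet E := measurableSet_lt measurable_const (Mx_meas hR.measurable hφ _)
  have i1 := Mx_int hR hφ hi (n + 1)
  have i0 := Mx_int hR hφ hi n
  have i2 : Integrable (fun x => Mx R φ n (R x)) ρ := hR.integrable_comp_of_integrable i0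
  have h1 : ∫ x in E, φ x ∂ρ = ∫ x in E, (Mx R φ (n + 1) x - Mx R φ n (R x)) ∂ρ := by
    refine setIntegral_congr_fun hEm fun x hx => ?_
    have hx' : 0 < max 0 (φ x + Mx R φ n (R x)) := hx
    show φ x = max 0 (φ x + Mx R φ n (R x)) - Mx R φ n (R x)
    rcases lt_max_iff.mp hx' with h | h
    · exact absurd h (lt_irrefl _)
    · rw [max_eq_right h.le]
      ring
  rw [h1, integral_sub i1.integrableOn i2.integrableOn]
  have h2 : ∫ x in E, Mx R φ (n + 1) x ∂ρ = ∫ x, Mx R φ (n + 1) x ∂ρ := by
    refine setIntegral_eq_integral_of_forall_compl_eq_zero fun x hx => ?_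
    exact le_antisymm (not_lt.mp hx) (Mx_nonneg R φ (n + 1) x)
  have h3 : ∫ x in E, Mx R φ n (R x) ∂ρ ≤ ∫ x, Mx R φ n (R x) ∂ρ :=
    setIntegral_le_integral i2 (Eventually.of_forall fun x => Mx_nonneg R φ n (R x))
  have h4 : ∫ x, Mx R φ n (R x) ∂ρ = ∫ x, Mx R φ n x ∂ρ := by
    have h5 := integral_map (μ := ρ) (φ := R) (f := Mx R φ n) hR.measurable.aemeasurable
      (Mx_meas hR.measurable hφ n).aestronglyMeasurable
    rw [hR.map_eq] at h5
    exact h5.symm
  have h5 : ∫ x, Mx R φ n x ∂ρ ≤ ∫ x, Mx R φ (n + 1) x ∂ρ :=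
    integral_mono i0 i1 fun x => Mx_mono R φ n x
  linarith

/-- The maximal inequality. -/
theorem max_ineq (hR : MeasurePreserving R ρ ρ) {h : Y → ℝ} (hh : Measurable h)
    (hi : Integrable h ρ) (h0 : ∀ y, 0 ≤ h y) {ε : ℝ} (hε : 0 < ε) :
    ρ {y | ∃ k : ℕ, ε * k < ∑ i ∈ Finset.range k, h (R^[i] y)} ≤
      ENNReal.ofReal ((∫ y, h y ∂ρ) / ε) := by
  let G : ℕ → Set Y := fun n => {y | ∃ k : ℕ, k ≤ n ∧ ε * k < ∑ i ∈ Finset.range k, h (R^[i] y)}
  have hSm : ∀ k : ℕ, Measurable fun y => ∑ i ∈ Finset.range k, h (R^[i] y) := fun k =>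
    Finset.measurable_fun_sum _ fun i _ => hh.comp (hR.measurable.iterate i)
  have hSi : ∀ k : ℕ, Integrable (fun y => ∑ i ∈ Finset.range k, h (R^[i] y)) ρ := fun k =>
    integrable_finsetSum _ fun i _ => (hR.iterate i).integrable_comp_of_integrable hi
  have hGm : ∀ n, MeasurableSet (G n) := by
    intro n
    have : G n = ⋃ k ∈ Finset.range (n + 1),
        {y | ε * k < ∑ i ∈ Finset.range k, h (R^[i] y)} := by
      ext y
      simp only [G, mem_ofPred_eq, mem_iUnion, Finset.mem_range, exists_prop, Nat.lt_succ_iff]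
    rw [this]
    exact Finset.measurableSet_biUnion _ fun k _ => measurableSet_lt measurable_const (hSm k)
  have hGf : ∀ n, ρ (G n) < ∞ := by
    intro n
    refine lt_of_le_of_lt (measure_mono ?_) ((hSi n).measure_ge_lt_top hε)
    rintro y ⟨k, hk, hy⟩
    show ε ≤ ∑ i ∈ Finset.range n, h (R^[i] y)
    have hk0 : k ≠ 0 := by
      rintro rfl
      simp at hy
    have hk1 : (1 : ℝ) ≤ k := by
      have : 1 ≤ k := by omega
      exact_mod_cast this
    have h1 : ∑ i ∈ Finset.range k, h (R^[i] y) ≤ ∑ i ∈ Finset.range n, h (R^[i] y) :=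
      Finset.sum_le_sum_of_subset_of_nonneg (Finset.range_subset_range.mpr hk) fun _ _ _ => h0 _
    nlinarith
  have hGb : ∀ n, ρ (G n) ≤ ENNReal.ofReal ((∫ y, h y ∂ρ) / ε) := by
    intro n
    let φ : Y → ℝ := fun y => h y - ε * (G n).indicator 1 y
    have hind : Measurable ((G n).indicator (1 : Y → ℝ)) := measurable_one.indicator (hGm n)
    have hindi : Integrable ((G n).indicator (1 : Y → ℝ)) ρ :=
      (integrable_indicator_iff (hGm n)).mpr (integrableOn_const (hGf n).ne)
    have hφ : Measurable φ := hh.sub (hind.const_mul ε)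
    have hφi : Integrable φ ρ := hi.sub (hindi.const_mul ε)
    have hga := garsia hR hφ hφi n
    set E := {x | 0 < Mx R φ (n + 1) x} with hE
    have hEm : MeasurableSet E := measurableSet_lt measurable_const (Mx_meas hR.measurable hφ _)
    have hGE : G n ⊆ E := by
      rintro y ⟨k, hk, hy⟩
      show 0 < Mx R φ (n + 1) y
      have hmono : Monotone fun n => Mx R φ n y := monotone_nat_of_le_succ fun n => Mx_mono R φ n y
      refine lt_of_lt_of_le ?_ (hmono (show k ≤ n + 1 by omega))
      refine lt_of_lt_of_le ?_ (Mx_sum R φ k y)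
      have h1 : ∑ i ∈ Finset.range k, φ (R^[i] y) = ∑ i ∈ Finset.range k, h (R^[i] y) -
          ε * ∑ i ∈ Finset.range k, (G n).indicator (1 : Y → ℝ) (R^[i] y) := by
        rw [Finset.mul_sum, ← Finset.sum_sub_distrib]
      have h2 : ∑ i ∈ Finset.range k, (G n).indicator (1 : Y → ℝ) (R^[i] y) ≤ k := by
        refine (Finset.sum_le_sum (g := fun _ => (1 : ℝ)) fun i _ => ?_).trans (by simp)
        by_cases h3 : R^[i] y ∈ G n
        · rw [indicator_of_mem h3]
          simp
        · rw [indicator_of_notMem h3]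
          exact zero_le_one
      rw [h1]
      have h3 := mul_le_mul_of_nonneg_left h2 hε.le
      linarith
    have h1 : ∫ x in E, φ x ∂ρ = ∫ x in E, h x ∂ρ - ε * ρ.real (G n) := by
      have e1 : ∫ x in E, φ x ∂ρ = ∫ x in E, h x ∂ρ -
          ∫ x in E, ε * (G n).indicator (1 : Y → ℝ) x ∂ρ :=
        integral_sub hi.integrableOn (hindi.const_mul ε).integrableOn
      rw [e1, integral_const_mul, integral_indicator_one (hGm n), measureReal_restrict_apply (hGm n),
        inter_eq_left.mpr hGE]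
    have h2 : ∫ x in E, h x ∂ρ ≤ ∫ x, h x ∂ρ :=
      setIntegral_le_integral hi (Eventually.of_forall h0)
    rw [← ofReal_measureReal (hGf n).ne]
    refine ENNReal.ofReal_le_ofReal ?_
    rw [le_div_iff₀ hε]
    linarith
  have hU : {y | ∃ k : ℕ, ε * k < ∑ i ∈ Finset.range k, h (R^[i] y)} = ⋃ n, G n := by
    ext y
    simp only [G, mem_ofPred_eq, mem_iUnion]
    constructor
    · rintro ⟨k, hk⟩
      exact ⟨k, k, le_rfl, hk⟩
    · rintro ⟨n, k, _, hk⟩
      exact ⟨k, hk⟩
  have hmono : Monotone G := fun n n' hn y ⟨k, hk, hy⟩ => ⟨k, hk.trans hn, hy⟩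
  rw [hU, hmono.measure_iUnion]
  exact iSup_le hGb

/-- ergodic averages -/
noncomputable def av (R : Y → Y) (k : ℕ) (f : Y → ℝ) (y : Y) : ℝ :=
  (k : ℝ)⁻¹ * ∑ i ∈ Finset.range k, f (R^[i] y)

theorem av_meas (hR : Measurable R) {f : Y → ℝ} (hf : Measurable f) (k : ℕ) :
    Measurable (av R k f) :=
  (Finset.measurable_fun_sum _ fun i _ => hf.comp (hR.iterate i)).const_mul _

theorem av_int (hR : MeasurePreserving R ρ ρ) {f : Y → ℝ} (hf : Integrable f ρ) (k : ℕ) :
    Integrable (av R k f) ρ :=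
  (integrable_finsetSum _ fun i _ => (hR.iterate i).integrable_comp_of_integrable hf).const_mul _

theorem av_abs_le (R : Y → Y) (k : ℕ) (f : Y → ℝ) (y : Y) :
    |av R k f y| ≤ av R k (fun z => |f z|) y := by
  unfold av
  rw [abs_mul, abs_inv, Nat.abs_cast]
  exact mul_le_mul_of_nonneg_left (Finset.abs_sum_le_sum_abs _ _) (by positivity)

theorem av_sub (R : Y → Y) (k : ℕ) (f g : Y → ℝ) (y : Y) :
    av R k (fun z => f z - g z) y = av R k f y - av R k g y := by
  unfold av
  rw [Finset.sum_sub_distrib, mul_sub]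

/-- weak type inequality for the averages -/
theorem av_weak (hR : MeasurePreserving R ρ ρ) {h : Y → ℝ} (hh : Measurable h)
    (hi : Integrable h ρ) (h0 : ∀ y, 0 ≤ h y) {ε : ℝ} (hε : 0 < ε) :
    ρ {y | ∃ k : ℕ, ε < av R k h y} ≤ ENNReal.ofReal ((∫ y, h y ∂ρ) / ε) := by
  refine (measure_mono ?_).trans (max_ineq hR hh hi h0 hε)
  rintro y ⟨k, hk⟩
  refine ⟨k, ?_⟩
  rcases Nat.eq_zero_or_pos k with rfl | hk0
  · exfalso
    simp [av] at hk
    linarith
  · have hk1 : (0 : ℝ) < k := by exact_mod_cast hk0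
    unfold av at hk
    rw [inv_mul_eq_div, lt_div_iff₀ hk1] at hk
    exact hk

/-- the pointwise ergodic theorem for integrable functions -/
theorem birkhoff_L1 [IsProbabilityMeasure ρ] (hR : MeasurePreserving R ρ ρ) {f : Y → ℝ}
    (hf : Measurable f) (hi : Integrable f ρ) :
    ∀ᵐ y ∂ρ, Tendsto (fun k => av R k f y) atTop (𝓝 ((ρ[f | MeasurableSpace.invariants R]) y)) := by
  have hle := MeasurableSpace.invariants_le R
  set E : (Y → ℝ) → Y → ℝ := fun g => ρ[g | MeasurableSpace.invariants R] with hE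
  set tr : ℕ → Y → ℝ := fun N y => max (-(N:ℝ)) (min (f y) N) with htr
  have htrm : ∀ N, Measurable (tr N) := fun N =>
    Measurable.max measurable_const (hf.min measurable_const)
  have htrb : ∀ N y, |tr N y| ≤ N := by
    intro N y
    have : (0:ℝ) ≤ N := Nat.cast_nonneg _
    rw [abs_le]
    exact ⟨le_max_left _ _, max_le (by linarith) (min_le_right _ _)⟩
  have htrle : ∀ N y, |tr N y| ≤ |f y| := by
    intro N y
    have h0 : (0:ℝ) ≤ N := Nat.cast_nonneg _
    rw [abs_le]
    constructor
    · refine le_trans ?_ (le_max_right _ _)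
      refine le_min (neg_abs_le _) ?_
      have := abs_nonneg (f y)
      linarith
    · refine max_le ?_ ((min_le_left _ _).trans (le_abs_self _))
      have := abs_nonneg (f y)
      linarith
  have htri : ∀ N, Integrable (tr N) ρ := fun N =>
    hi.abs.mono' (htrm N).aestronglyMeasurable (Eventually.of_forall fun y => by
      rw [Real.norm_eq_abs]; exact htrle N y)
  have hconv : ∀ᵐ y ∂ρ, ∀ N, Tendsto (fun k => av R k (tr N) y) atTop (𝓝 (E (tr N) y)) := by
    rw [ae_all_iff]
    intro N
    exact Pool.Agent.H165R3.BPE.birkhoff hR (tr N) (htrm N) N (htrb N)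
  -- the L1 distance of the truncations
  set δ : ℕ → ℝ := fun N => ∫ y, |f y - tr N y| ∂ρ with hδ
  have hδ0 : Tendsto δ atTop (𝓝 0) := by
    have h1 : Tendsto δ atTop (𝓝 (∫ _ : Y, (0:ℝ) ∂ρ)) := by
      refine tendsto_integral_of_dominated_convergence (fun y => 2 * |f y|)
        (fun N => ((hf.sub (htrm N)).abs).aestronglyMeasurable) (hi.abs.const_mul 2)
        (fun N => Eventually.of_forall fun y => ?_) (Eventually.of_forall fun y => ?_)
      · rw [Real.norm_of_nonneg (abs_nonneg _)]
        have := htrle N y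
        have := abs_sub (f y) (tr N y)
        linarith
      · have : ∀ᶠ N : ℕ in atTop, |f y - tr N y| = 0 := by
          obtain ⟨N₀, hN₀⟩ := exists_nat_ge |f y|
          filter_upwards [eventually_ge_atTop N₀] with N hN
          have h2 : |f y| ≤ N := hN₀.trans (by exact_mod_cast hN)
          have h3 := abs_le.1 h2
          have : tr N y = f y := by
            simp only [htr]
            rw [min_eq_left h3.2, max_eq_right h3.1]
          rw [this, sub_self, abs_zero]
        exact tendsto_const_nhds.congr' (this.mono fun N hN => hN.symm)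
    simpa using h1
  -- exceptional sets
  have hbad : ∀ ε : ℝ, 0 < ε → ∀ᵐ y ∂ρ, ∀ᶠ k in atTop, |av R k f y - E f y| ≤ 3 * ε := by
    intro ε hε
    have hb : ∀ N, ρ {y | ¬ ∀ᶠ k in atTop, |av R k f y - E f y| ≤ 3 * ε} ≤
        ENNReal.ofReal (δ N / ε) + ENNReal.ofReal (δ N / ε) := by
      intro N
      have hgi : Integrable (fun y => |f y - tr N y|) ρ := (hi.sub (htri N)).abs
      have hgm : Measurable (fun y => |f y - tr N y|) := (hf.sub (htrm N)).abs
      have w1 := av_weak hR hgm hgi (fun _ => abs_nonneg _) hε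
      have w2 : ρ {y | ε ≤ E (fun y => |f y - tr N y|) y} ≤ ENNReal.ofReal (δ N / ε) := by
        have hnn : 0 ≤ᵐ[ρ] E (fun y => |f y - tr N y|) :=
          condExp_nonneg (Eventually.of_forall fun y => abs_nonneg _)
        have hint : Integrable (E (fun y => |f y - tr N y|)) ρ := integrable_condExp
        have h1 := mul_meas_ge_le_integral_of_nonneg hnn hint ε
        have h2 : ∫ y, E (fun y => |f y - tr N y|) y ∂ρ = δ N := integral_condExp hle
        rw [h2] at h1
        have h3 : ρ.real {y | ε ≤ E (fun y => |f y - tr N y|) y} ≤ δ N / ε := by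
          rw [le_div_iff₀ hε]; linarith
        rw [← ofReal_measureReal]
        exact ENNReal.ofReal_le_ofReal h3
      have hsplit : ∀ᵐ y ∂ρ, y ∈ {y | ¬ ∀ᶠ k in atTop, |av R k f y - E f y| ≤ 3 * ε} →
          y ∈ {y | ∃ k : ℕ, ε < av R k (fun y => |f y - tr N y|) y} ∪
            {y | ε ≤ E (fun y => |f y - tr N y|) y} := by
        have c1 : E (fun y => f y - tr N y) =ᵐ[ρ] E f - E (tr N) := condExp_sub hi (htri N) _
        have c2 : ∀ᵐ y ∂ρ, |E (fun y => f y - tr N y) y| ≤ E (fun y => |f y - tr N y|) y := by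
          have u1 : E (fun y => f y - tr N y) ≤ᵐ[ρ] E (fun y => |f y - tr N y|) :=
            condExp_mono (hi.sub (htri N)) hgi (Eventually.of_forall fun y => le_abs_self _)
          have u2 : E (fun y => -(f y - tr N y)) ≤ᵐ[ρ] E (fun y => |f y - tr N y|) :=
            condExp_mono (hi.sub (htri N)).neg hgi (Eventually.of_forall fun y => neg_le_abs _)
          have u3 : E (fun y => -(f y - tr N y)) =ᵐ[ρ] -E (fun y => f y - tr N y) :=
            condExp_neg _ _
          filter_upwards [u1, u2, u3] with y h1 h2 h3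
          rw [abs_le]
          rw [h3, Pi.neg_apply] at h2
          exact ⟨by linarith, h1⟩
        filter_upwards [hconv, c1, c2] with y h1 h2 h3 h4
        by_contra hcon
        simp only [mem_union, not_or, mem_ofPred_eq, not_exists, not_lt, not_le] at hcon
        apply h4
        have h5 := h1 N
        rw [Metric.tendsto_atTop] at h5
        obtain ⟨K, hK⟩ := h5 ε hε
        filter_upwards [eventually_ge_atTop K] with k hk
        have h6 := (hK k hk).le
        rw [Real.dist_eq] at h6
        have h7 := hcon.1 k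
        have h8 := av_abs_le R k (fun y => f y - tr N y) y
        rw [av_sub] at h8
        have h9 := hcon.2.le
        rw [h2, Pi.sub_apply] at h3
        have e : av R k f y - E f y = (av R k f y - av R k (tr N) y) +
            (av R k (tr N) y - E (tr N) y) - (E f y - E (tr N) y) := by ring
        rw [e]
        calc _ ≤ |(av R k f y - av R k (tr N) y) + (av R k (tr N) y - E (tr N) y)| +
              |E f y - E (tr N) y| := abs_sub _ _
          _ ≤ |av R k f y - av R k (tr N) y| + |av R k (tr N) y - E (tr N) y| +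
              |E f y - E (tr N) y| := by gcongr; exact abs_add_le _ _
          _ ≤ 3 * ε := by linarith
      calc _ ≤ ρ ({y | ∃ k : ℕ, ε < av R k (fun y => |f y - tr N y|) y} ∪
            {y | ε ≤ E (fun y => |f y - tr N y|) y}) := measure_mono_ae hsplit
        _ ≤ _ := (measure_union_le _ _).trans (add_le_add w1 w2)
    have hlim : Tendsto (fun N => ENNReal.ofReal (δ N / ε) + ENNReal.ofReal (δ N / ε)) atTop (𝓝 0) := by
      have h1 : Tendsto (fun N => ENNReal.ofReal (δ N / ε)) atTop (𝓝 0) := by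
        have := ENNReal.tendsto_ofReal (hδ0.div_const ε)
        simpa using this
      simpa using h1.add h1
    have hz : ρ {y | ¬ ∀ᶠ k in atTop, |av R k f y - E f y| ≤ 3 * ε} = 0 :=
      le_antisymm (ge_of_tendsto' hlim hb) bot_le
    exact hz
  have hall : ∀ᵐ y ∂ρ, ∀ n : ℕ, ∀ᶠ k in atTop, |av R k f y - E f y| ≤ 3 * (1 / ((n:ℝ) + 1)) := by
    rw [ae_all_iff]
    intro n
    exact hbad _ (by positivity)
  filter_upwards [hall] with y hy
  rw [Metric.tendsto_atTop]
  intro ε hε
  obtain ⟨n, hn⟩ := exists_nat_gt (3 / ε)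
  have hn1 : (0:ℝ) < (n:ℝ) + 1 := by positivity
  have h1 : 3 * (1 / ((n:ℝ) + 1)) < ε := by
    rw [mul_one_div, div_lt_iff₀ hn1]
    rw [div_lt_iff₀ hε] at hn
    nlinarith
  obtain ⟨K, hK⟩ := eventually_atTop.1 (hy n)
  exact ⟨K, fun k hk => by rw [Real.dist_eq]; exact (hK k hk).trans_lt h1⟩

end Pool.Agent.R243.Erg
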