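import Mathlib
import Pool.Agent.R243.Erg.Max

set_option autoImplicit false

/-!
# The dominated ergodic theorem and joint limits
-/

namespace Pool.Agent.R243.Erg

open Filter Topology MeasureTheory Set
open scoped ENNReal NNReal

variable {Y : Type*} [MeasurableSpace Y] {ρ : Measure Y} {R : Y → Y}

/-- maximal function of the ergodic averages -/
noncomputable def mxf (R : Y → Y) (f : Y → ℝ) (y : Y) : ℝ≥0∞ :=
  ⨆ k : ℕ, ENNReal.ofReal (av R k (fun z => |f z|) y)

theorem mxf_meas (hR : Measurable R) {f : Y → ℝ} (hf : Measurable f) : Measurable (mxf R f) :=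
  Measurable.iSup fun k => (av_meas hR hf.abs k).ennreal_ofReal

/-- tail estimate for the maximal function -/
theorem mxf_tail [IsProbabilityMeasure ρ] (hR : MeasurePreserving R ρ ρ) {f : Y → ℝ}
    (hf : Measurable f) {p : ℝ} (hp : 1 < p) (hi : Integrable (fun y => |f y| ^ p) ρ) (n : ℕ)
    (hn : 1 ≤ n) :
    ρ {y | (n : ℝ≥0∞) < mxf R f y} ≤
      ENNReal.ofReal ((∫ y, |f y| ^ p ∂ρ) * (2 / (n:ℝ)) ^ p) := by
  have hn0 : (0:ℝ) < n := by exact_mod_cast hn
  set c : ℝ := n / 2 with hc
  have hc0 : 0 < c := by positivity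
  set h : Y → ℝ := fun y => if c < |f y| then |f y| else 0 with hh
  have hhm : Measurable h := Measurable.ite (measurableSet_lt measurable_const hf.abs) hf.abs
    measurable_const
  have hh0 : ∀ y, 0 ≤ h y := by
    intro y
    simp only [hh]
    split_ifs
    · exact abs_nonneg _
    · exact le_rfl
  have hle : ∀ y, h y ≤ |f y| ^ p * c ^ (1 - p) := by
    intro y
    simp only [hh]
    split_ifs with h1
    · have hfp : 0 < |f y| := hc0.trans h1
      have h2 : |f y| ^ (1 - p) ≤ c ^ (1 - p) := by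
        apply Real.rpow_le_rpow_of_nonpos hc0 h1.le
        linarith
      calc |f y| = |f y| ^ p * |f y| ^ (1 - p) := by
            rw [← Real.rpow_add hfp]; simp
        _ ≤ _ := by gcongr
    · positivity
  have hhi : Integrable h ρ :=
    (hi.mul_const (c ^ (1 - p))).mono' hhm.aestronglyMeasurable (Eventually.of_forall fun y => by
      rw [Real.norm_of_nonneg (hh0 y)]; exact hle y)
  have hw := av_weak hR hhm hhi hh0 hc0
  have hint : ∫ y, h y ∂ρ ≤ (∫ y, |f y| ^ p ∂ρ) * c ^ (1 - p) := by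
    rw [← integral_mul_const]
    exact integral_mono hhi (hi.mul_const _) hle
  calc ρ {y | (n : ℝ≥0∞) < mxf R f y} ≤ ρ {y | ∃ k : ℕ, c < av R k h y} := by
        refine measure_mono ?_
        intro y hy
        have hy' : (n : ℝ≥0∞) < ⨆ k : ℕ, ENNReal.ofReal (av R k (fun z => |f z|) y) := hy
        rw [lt_iSup_iff] at hy'
        obtain ⟨k, hk⟩ := hy'
        refine ⟨k, ?_⟩
        have h1 : (n:ℝ) < av R k (fun z => |f z|) y := by
          rw [ENNReal.lt_ofReal_iff_toReal_lt (ENNReal.natCast_ne_top n)] at hk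
          simpa using hk
        have hk0 : k ≠ 0 := by
          rintro rfl
          simp [av] at h1
          linarith
        have hk1 : (0:ℝ) < k := by
          have : 0 < k := by omega
          exact_mod_cast this
        have h2 : av R k (fun z => |f z|) y ≤ av R k h y + c := by
          unfold av
          have h3 : ∑ i ∈ Finset.range k, |f (R^[i] y)| ≤
              ∑ i ∈ Finset.range k, (h (R^[i] y) + c) := by
            refine Finset.sum_le_sum fun i _ => ?_
            simp only [hh]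
            split_ifs with h4
            · linarith
            · linarith [not_lt.1 h4]
          calc (k:ℝ)⁻¹ * ∑ i ∈ Finset.range k, |f (R^[i] y)| ≤
                (k:ℝ)⁻¹ * ∑ i ∈ Finset.range k, (h (R^[i] y) + c) := by gcongr
            _ = (k:ℝ)⁻¹ * ∑ i ∈ Finset.range k, h (R^[i] y) + c := by
                rw [Finset.sum_add_distrib, mul_add, Finset.sum_const, Finset.card_range,
                  nsmul_eq_mul, ← mul_assoc, inv_mul_cancel₀ hk1.ne', one_mul]
        show c < av R k h y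
        have : (n:ℝ) = c + c := by rw [hc]; ring
        linarith
    _ ≤ ENNReal.ofReal ((∫ y, h y ∂ρ) / c) := hw
    _ ≤ _ := by
        apply ENNReal.ofReal_le_ofReal
        calc (∫ y, h y ∂ρ) / c ≤ ((∫ y, |f y| ^ p ∂ρ) * c ^ (1 - p)) / c := by gcongr
          _ = (∫ y, |f y| ^ p ∂ρ) * (2 / (n:ℝ)) ^ p := by
            have h1 : c ^ (1 - p) = c * c ^ (-p) := by
              rw [← Real.rpow_one_add' hc0.le (by linarith)]; ring_nf
            have h2 : (2 / (n:ℝ)) = c⁻¹ := by rw [hc]; field_simp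
            rw [h1, h2, Real.inv_rpow hc0.le, ← Real.rpow_neg hc0.le]
            field_simp

/-- the maximal function of an `L^p` function is integrable, `p > 1` -/
theorem mxf_lintegral [IsProbabilityMeasure ρ] (hR : MeasurePreserving R ρ ρ) {f : Y → ℝ}
    (hf : Measurable f) {p : ℝ} (hp : 1 < p) (hi : Integrable (fun y => |f y| ^ p) ρ) :
    ∫⁻ y, mxf R f y ∂ρ ≠ ⊤ := by
  have hle : ∀ y, mxf R f y ≤ ∑' n : ℕ, ({y | (n : ℝ≥0∞) < mxf R f y}).indicator 1 y := by
    intro y
    by_cases htop : mxf R f y = ⊤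
    · have h1 : ∀ n : ℕ, ({y | (n : ℝ≥0∞) < mxf R f y}).indicator (1 : Y → ℝ≥0∞) y = 1 := by
        intro n
        rw [indicator_of_mem]
        · rfl
        · show (n : ℝ≥0∞) < mxf R f y
          rw [htop]; exact ENNReal.natCast_lt_top n
      simp only [h1]
      rw [ENNReal.tsum_const_eq_top_of_ne_zero one_ne_zero]
      exact le_top
    · set v := mxf R f y with hv
      obtain ⟨N, hN1, hN2⟩ : ∃ N : ℕ, v ≤ N ∧ ∀ n < N, (n : ℝ≥0∞) < v := by
        refine ⟨⌈v.toReal⌉₊, ?_, ?_⟩
        · rw [← ENNReal.ofReal_toReal htop]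
          rw [ENNReal.toReal_ofReal ENNReal.toReal_nonneg, ← ENNReal.ofReal_natCast]
          exact ENNReal.ofReal_le_ofReal (Nat.le_ceil _)
        · intro n hn
          rw [Nat.lt_ceil] at hn
          rw [← ENNReal.ofReal_toReal htop, ← ENNReal.ofReal_natCast]
          rw [ENNReal.ofReal_lt_ofReal_iff_of_nonneg (Nat.cast_nonneg _)]
          exact hn
      calc v ≤ N := hN1
        _ = ∑ n ∈ Finset.range N, (1 : ℝ≥0∞) := by simp
        _ = ∑ n ∈ Finset.range N, ({y | (n : ℝ≥0∞) < mxf R f y}).indicator 1 y := by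
            refine Finset.sum_congr rfl fun n hn => ?_
            rw [indicator_of_mem]
            · rfl
            · exact hN2 n (Finset.mem_range.1 hn)
        _ ≤ _ := ENNReal.sum_le_tsum _
  have hset : ∀ n : ℕ, MeasurableSet {y | (n : ℝ≥0∞) < mxf R f y} := fun n =>
    measurableSet_lt measurable_const (mxf_meas hR.measurable hf)
  have h1 : ∫⁻ y, mxf R f y ∂ρ ≤ ∑' n : ℕ, ρ {y | (n : ℝ≥0∞) < mxf R f y} := by
    refine (lintegral_mono hle).trans ?_
    rw [lintegral_tsum (fun n => (measurable_one.indicator (hset n)).aemeasurable)]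
    refine ENNReal.tsum_le_tsum fun n => ?_
    rw [lintegral_indicator_one (hset n)]
  set C : ℝ := ∫ y, |f y| ^ p ∂ρ with hC
  have hC0 : 0 ≤ C := integral_nonneg fun y => by positivity
  have h2 : ∑' n : ℕ, ρ {y | (n : ℝ≥0∞) < mxf R f y} ≤
      1 + ∑' n : ℕ, ENNReal.ofReal (C * (2 / ((n + 1 : ℕ):ℝ)) ^ p) := by
    rw [tsum_eq_zero_add' ENNReal.summable]
    refine add_le_add prob_le_one (ENNReal.tsum_le_tsum fun n => ?_)
    exact mxf_tail hR hf hp hi (n + 1) (by omega)
  have hsum : Summable fun n : ℕ => C * (2 / ((n + 1 : ℕ):ℝ)) ^ p := by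
    have h3 : Summable fun n : ℕ => 1 / ((n + 1 : ℕ):ℝ) ^ p :=
      (summable_nat_add_iff 1 (f := fun n : ℕ => 1 / ((n:ℝ)) ^ p)).2
        (Real.summable_one_div_nat_rpow.2 hp)
    refine (h3.mul_left (C * 2 ^ p)).congr fun n => ?_
    rw [Real.div_rpow (by norm_num) (by positivity)]
    ring
  have h4 : ∑' n : ℕ, ENNReal.ofReal (C * (2 / ((n + 1 : ℕ):ℝ)) ^ p) ≠ ⊤ := by
    rw [← ENNReal.ofReal_tsum_of_nonneg (fun n => by positivity) hsum]
    exact ENNReal.ofReal_ne_top
  exact ne_top_of_le_ne_top (ENNReal.add_ne_top.2 ⟨ENNReal.one_ne_top, h4⟩) (h1.trans h2)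

end Pool.Agent.R243.Erg
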